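import Pool.Agent.R920.WQ.Pts

/-!
# Tangent vectors are separated
-/

set_option autoImplicit false

namespace Pool.Agent.R920.WQ

open MvPolynomial Pool.Agent.R920.WC

variable {G : Type} [Group G] {ι : Type} [Fintype ι] [DecidableEq ι]

/-- the derivative at `v` in the direction `u` -/
noncomputable def dir (v u : ι → ℂ) (s : MvPolynomial ι ℂ) : ℂ :=
  ∑ i, eval v (pderiv i s) * u i

omit [DecidableEq ι] in
theorem dir_mul (v u : ι → ℂ) (s t : MvPolynomial ι ℂ) :
    dir v u (s * t) = eval v s * dir v u t + eval v t * dir v u s := by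
  unfold dir
  rw [Finset.mul_sum, Finset.mul_sum, ← Finset.sum_add_distrib]
  refine Finset.sum_congr rfl fun i _ => ?_
  rw [Derivation.leibniz, smul_eq_mul, smul_eq_mul, map_add, map_mul, map_mul]
  ring

omit [DecidableEq ι] in
theorem dir_sub (v u : ι → ℂ) (s t : MvPolynomial ι ℂ) :
    dir v u (s - t) = dir v u s - dir v u t := by
  unfold dir
  rw [← Finset.sum_sub_distrib]
  refine Finset.sum_congr rfl fun i _ => ?_
  rw [map_sub, map_sub, sub_mul]

omit [DecidableEq ι] in
theorem dir_C (v u : ι → ℂ) (c : ℂ) : dir v u (C c) = 0 := by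
  unfold dir
  refine Finset.sum_eq_zero fun i _ => ?_
  rw [pderiv_C, map_zero, zero_mul]

theorem dir_X (v u : ι → ℂ) (i : ι) : dir v u (X i) = u i := by
  unfold dir
  rw [Finset.sum_eq_single i]
  · rw [pderiv_X_self, map_one, one_mul]
  · intro j _ hj
    rw [pderiv_X_of_ne hj.symm, map_zero, zero_mul]
  · intro h
    exact absurd (Finset.mem_univ _) h

theorem dir_X_pow (v u : ι → ℂ) {i : ι} {x : ℂ} (hx : u i = x * v i) (n : ℕ) :
    dir v u (X i ^ n) = n * x * v i ^ n := by
  induction n with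
  | zero =>
    rw [pow_zero, ← map_one C, dir_C]
    simp
  | succ n ih =>
    rw [pow_succ, dir_mul, ih, dir_X, hx]
    simp only [map_pow, eval_X]
    push_cast
    ring

theorem dir_pair (v u : ι → ℂ) {i k : ι} {x y : ℂ} (hx : u i = x * v i) (hy : u k = y * v k)
    (m n : ℕ) : dir v u (X i ^ m * X k ^ n) = (m * x + n * y) * (v i ^ m * v k ^ n) := by
  rw [dir_mul, dir_X_pow v u hx, dir_X_pow v u hy]
  simp only [map_pow, eval_X]
  ring

namespace Setup

variable {a : ι → ℕ} {α : ι → G →* ℂˣ} {d : ℕ} {f : MvPolynomial ι ℂ} [Finite G]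

/-- tangent vectors are separated -/
theorem tan (S : Setup a α d f) (hM : ∃ l, 2 ≤ a l) {e : ℕ} (he : d ≤ e + ∑ l, (a l - 1))
    (χ : G →* ℂˣ) {v u : ι → ℂ} (hv : v ≠ 0) (hfv : eval v f = 0)
    (hfu : ∑ i, eval v (pderiv i f) * u i = 0)
    (H : ∀ s, IsSec a α e χ s → eval v s = 0 → ∑ i, eval v (pderiv i s) * u i = 0) :
    ∃ τ : ℂ, ∀ l, u l = τ * (a l * v l) := by
  obtain ⟨s0, hs0, hs0v⟩ := S.bpf he χ hv hfv
  have hc : ∀ s, IsSec a α e χ s → dir v u s = dir v u s0 / eval v s0 * eval v s := by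
    intro s hs
    have h1 : dir v u (s - C (eval v s / eval v s0) * s0) = 0 :=
      H _ (hs.sub (hs0.smul (eval v s / eval v s0))) (by
        rw [map_sub, map_mul, eval_C, div_mul_cancel₀ _ hs0v, sub_self])
    rw [dir_sub, dir_mul, dir_C, mul_zero, add_zero, eval_C] at h1
    rw [sub_eq_zero.1 h1]
    ring
  set c := dir v u s0 / eval v s0 with hcdef
  obtain ⟨i, k, hik, hvi, hvk, hpair⟩ := S.exists_pair hM hv hfv
  obtain ⟨x, hx⟩ : ∃ x : ι → ℂ, ∀ l, v l ≠ 0 → u l = x l * v l :=
    ⟨fun l => u l / v l, fun l hl => by rw [div_mul_cancel₀ _ hl]⟩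
  have hval : ∀ m n : ℕ, e = m * a i + n * a k → (∀ g, χ g = α i g ^ m * α k g ^ n) →
      m * x i + n * x k = c := by
    intro m n h1 h2
    have h3 := hc _ (isSec_pair h1 h2)
    rw [dir_pair v u (hx i hvi) (hx k hvk)] at h3
    simp only [map_mul, map_pow, eval_X] at h3
    exact mul_right_cancel₀ (mul_ne_zero (pow_ne_zero m hvi) (pow_ne_zero n hvk)) h3
  have hthree : ∀ l, l ≠ i → l ≠ k → ∃ m n : ℕ, e = a l + (m * a i + n * a k) ∧
      u l + v l * (m * x i + n * x k) = c * v l := by
    intro l hli hlk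
    obtain ⟨m, n, h1, h2⟩ := S.sec_three he χ hik hli hlk
    refine ⟨m, n, h1, ?_⟩
    have h3 := hc _ (isSec_triple h1 h2)
    rw [dir_mul, dir_pair v u (hx i hvi) (hx k hvk), dir_X] at h3
    simp only [map_mul, map_pow, eval_X] at h3
    refine mul_right_cancel₀ (mul_ne_zero (pow_ne_zero m hvi) (pow_ne_zero n hvk)) ?_
    linear_combination h3
  have hg0 : (Nat.card G : ℂ) ≠ 0 := by
    have := Nat.card_pos (α := G)
    exact_mod_cast this.ne'
  have hrel : (a k : ℂ) * x i = a i * x k := by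
    by_cases hd : d = Nat.card G * a i * a k
    · have h0 := hpair.resolve_left fun h => h hd
      have hu0 : ∀ l, l ≠ i → l ≠ k → u l = 0 := by
        intro l h1 h2
        obtain ⟨m, n, _, h3⟩ := hthree l h1 h2
        rw [h0 l h1 h2, zero_mul, mul_zero, add_zero] at h3
        exact h3
      obtain ⟨p, q, hp, hq, h⟩ := S.restrict hik hd
      obtain ⟨e1, e2, e3⟩ := h v h0
      rw [hfv] at e1
      rw [← Finset.add_sum_erase _ _ (Finset.mem_univ i),
        ← Finset.add_sum_erase _ _ (Finset.mem_erase.2 ⟨hik.symm, Finset.mem_univ k⟩),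
        Finset.sum_eq_zero (fun l hl => by
          simp only [Finset.mem_erase, Finset.mem_univ, and_true] at hl
          rw [hu0 l hl.2 hl.1, mul_zero]), add_zero, hx i hvi, hx k hvk] at hfu
      have h4 : p * v i ^ (Nat.card G * a k) * Nat.card G * (a k * x i - a i * x k) = 0 := by
        push_cast at e2 e3
        linear_combination hfu - x i * e2 - x k * e3 + (Nat.card G : ℂ) * a i * x k * e1
      have h5 := (mul_eq_zero.1 h4).resolve_left
        (mul_ne_zero (mul_ne_zero hp (pow_ne_zero _ hvi)) hg0)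
      exact sub_eq_zero.1 h5
    · obtain ⟨m, n, ⟨h1, h2⟩, h3, h4⟩ := S.sec_shift he χ hik hd
      have h5 := hval _ _ h1 h2
      have h6 := hval _ _ h3 h4
      push_cast at h5 h6
      refine mul_left_cancel₀ hg0 ?_
      linear_combination h5 - h6
  have hai : (a i : ℂ) ≠ 0 := by
    have := S.ha i
    exact_mod_cast this.ne'
  obtain ⟨m, n, h1, h2⟩ := S.sec_two he χ hik
  have h3 := hval m n h1 h2
  have hxi : x i = x i / a i * a i := by rw [div_mul_cancel₀ _ hai]
  have hxk : x k = x i / a i * a k := by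
    rw [div_mul_eq_mul_div, eq_div_iff hai]
    linear_combination -hrel
  have hce : c = x i / a i * e := by
    rw [← h3, h1]
    push_cast
    linear_combination m * hxi + n * hxk
  refine ⟨x i / a i, fun l => ?_⟩
  by_cases hli : l = i
  · subst hli
    rw [hx l hvi, ← mul_assoc, ← hxi]
  · by_cases hlk : l = k
    · subst hlk
      rw [hx l hvk, ← mul_assoc, ← hxk]
    · obtain ⟨m', n', h4, h5⟩ := hthree l hli hlk
      have h6 : (e : ℂ) = a l + (m' * a i + n' * a k) := by exact_mod_cast h4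
      rw [hce, h6] at h5
      linear_combination h5 - v l * m' * hxi - v l * n' * hxk

end Setup

end Pool.Agent.R920.WQ
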