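import Pool.Agent.R920.WQ.Num

/-!
# The equation restricted to a coordinate line, in the smallest degree
-/

set_option autoImplicit false

namespace Pool.Agent.R920.WQ

open MvPolynomial Pool.Agent.R920.WC

variable {G : Type} [Group G] {ι : Type} [Fintype ι] [DecidableEq ι]

omit [DecidableEq ι] in
theorem bind_coeff (b : ι → ℂ) (p : MvPolynomial ι ℂ) (m : ι →₀ ℕ) :
    coeff m (bind₁ (fun i => C (b i) * X i) p) = (∏ i, b i ^ m i) * coeff m p := by
  classical
  induction p using MvPolynomial.induction_on' with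
  | monomial n c =>
    have h1 : bind₁ (fun i => C (b i) * X i) (monomial n c) =
        monomial n (c * ∏ i, b i ^ n i) := by
      rw [monomial_eq, monomial_eq, Finsupp.prod_fintype _ _ (fun _ => by simp), map_mul, map_prod]
      simp only [map_pow, bind₁_X_right, mul_pow, Finset.prod_mul_distrib, map_mul, map_prod,
        algHom_C, algebraMap_eq]
      ring
    rw [h1, coeff_monomial, coeff_monomial]
    split_ifs with h
    · subst h
      ring
    · rw [mul_zero]
  | add p q hp hq =>
    rw [map_add, coeff_add, coeff_add, hp, hq]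
    ring

namespace Setup

variable {a : ι → ℕ} {α : ι → G →* ℂˣ} {d : ℕ} {f : MvPolynomial ι ℂ}

/-- all monomials of the equation have the same character -/
theorem coeff_char (g : G) {c : ℂ}
    (hc : ∀ x : ι → ℂ, eval (fun i => (α i g : ℂ) * x i) f = c * eval x f)
    {m : ι →₀ ℕ} (hm : m ∈ f.support) : ∏ i, ((α i g : ℂˣ) : ℂ) ^ m i = c := by
  have h1 : bind₁ (fun i => C ((α i g : ℂˣ) : ℂ) * X i) f = C c * f := by
    apply MvPolynomial.funext
    intro x
    have h2 : ((aeval x : MvPolynomial ι ℂ →ₐ[ℂ] ℂ).comp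
        (bind₁ (fun i => C ((α i g : ℂˣ) : ℂ) * X i))) =
        aeval (fun i => ((α i g : ℂˣ) : ℂ) * x i) := by
      apply MvPolynomial.algHom_ext
      intro j
      simp
    have h3 := congrArg (fun φ => φ f) (congrArg DFunLike.coe h2)
    simp only [AlgHom.comp_apply, coe_aeval_eq_eval] at h3
    rw [map_mul, eval_C, ← hc x]
    exact h3
  have h2 := congrArg (coeff m) h1
  rw [bind_coeff, coeff_C_mul] at h2
  exact mul_right_cancel₀ (mem_support_iff.1 hm) h2

variable [Finite G]

/-- the pure powers occur -/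
theorem single_mem (S : Setup a α d f) {i : ι} {A : ℕ} (hA : d = A * a i) :
    Finsupp.single i A ∈ f.support := by
  obtain ⟨m, hm, hm0⟩ := exists_monomial f _ (S.eval_single i)
  have h3 := S.hf (mem_support_iff.1 hm)
  rw [weight_eq, Finset.sum_eq_single i (fun j _ hj => by
    rw [hm0 j (Pi.single_eq_of_ne hj _), zero_mul]) (fun h => absurd (Finset.mem_univ _) h)] at h3
  have h4 : m i = A := Nat.eq_of_mul_eq_mul_right (S.ha i) (h3.trans hA)
  have h5 : m = Finsupp.single i A := by
    ext j
    by_cases hj : j = i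
    · subst hj
      rw [Finsupp.single_eq_same, h4]
    · rw [Finsupp.single_eq_of_ne hj, hm0 j (Pi.single_eq_of_ne hj _)]
  rwa [← h5]

/-- the monomials on a coordinate line -/
theorem support_pair (S : Setup a α d f) {i k : ι} (hik : i ≠ k)
    (hd : d = Nat.card G * a i * a k) {m : ι →₀ ℕ} (hm : m ∈ f.support)
    (h0 : ∀ l, l ≠ i → l ≠ k → m l = 0) :
    m = Finsupp.single i (Nat.card G * a k) ∨ m = Finsupp.single k (Nat.card G * a i) := by
  have hw := S.hf (mem_support_iff.1 hm)
  rw [weight_eq, ← Finset.add_sum_erase _ _ (Finset.mem_univ i),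
    ← Finset.add_sum_erase _ _ (Finset.mem_erase.2 ⟨hik.symm, Finset.mem_univ k⟩),
    Finset.sum_eq_zero (fun l hl => by
      simp only [Finset.mem_erase, Finset.mem_univ, and_true] at hl
      rw [h0 l hl.2 hl.1, zero_mul]), add_zero] at hw
  have hle : m k ≤ Nat.card G * a i := by
    refine Nat.le_of_mul_le_mul_right ?_ (S.ha k)
    rw [← hd]
    omega
  have hdi : d = Nat.card G * a k * a i := by rw [hd]; ring
  have h1 : m i * a i = (Nat.card G * a i - m k) * a k := by
    rw [Nat.sub_mul]
    omega
  have h2 : ∀ g, α i g ^ m i = α k g ^ (Nat.card G * a i - m k) := by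
    intro g
    obtain ⟨c, hc⟩ := S.hinv g
    have h3 := coeff_char g hc hm
    have h4 := coeff_char g hc (S.single_mem (i := k) hd)
    rw [← Finset.mul_prod_erase _ _ (Finset.mem_univ i),
      ← Finset.mul_prod_erase _ _ (Finset.mem_erase.2 ⟨hik.symm, Finset.mem_univ k⟩),
      Finset.prod_eq_one (fun l hl => by
        simp only [Finset.mem_erase, Finset.mem_univ, and_true] at hl
        rw [h0 l hl.2 hl.1, pow_zero]), mul_one] at h3
    rw [Finset.prod_eq_single k (fun l _ hl => by
      rw [Finsupp.single_eq_of_ne hl, pow_zero]) (fun h => absurd (Finset.mem_univ _) h),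
      Finsupp.single_eq_same, ← h3] at h4
    have h5 : α k g ^ (Nat.card G * a i) = α i g ^ m i * α k g ^ m k := by
      ext
      rw [Units.val_mul, Units.val_pow_eq_pow_val, Units.val_pow_eq_pow_val,
        Units.val_pow_eq_pow_val]
      exact h4
    have h6 : α k g ^ (Nat.card G * a i) = α k g ^ (Nat.card G * a i - m k) * α k g ^ m k := by
      rw [← pow_add, Nat.sub_add_cancel hle]
    rw [h6] at h5
    exact (mul_right_cancel h5).symm
  have h3 := (S.free hik).dvd (S.ha i) h1 h2
  rw [mul_comm (a i)] at h3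
  have hext : ∀ x y : ℕ, m i = x → m k = y → ∀ n : ι →₀ ℕ, n i = x → n k = y →
      (∀ l, l ≠ i → l ≠ k → n l = 0) → m = n := by
    intro x y hx hy n hnx hny hn
    ext l
    by_cases hl : l = i
    · subst hl; rw [hx, hnx]
    · by_cases hl' : l = k
      · subst hl'; rw [hy, hny]
      · rw [h0 l hl hl', hn l hl hl']
  rcases Nat.eq_zero_or_pos (Nat.card G * a i - m k) with h4 | h4
  · right
    have h5 : m k = Nat.card G * a i := by omega
    rw [h4, zero_mul] at h1
    have h6 : m i = 0 := by
      rcases Nat.mul_eq_zero.1 h1 with h | h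
      · exact h
      · have := S.ha i
        omega
    refine hext 0 _ h6 h5 _ (Finsupp.single_eq_of_ne hik) (Finsupp.single_eq_same) ?_
    intro l _ hl
    exact Finsupp.single_eq_of_ne hl
  · left
    have h5 := Nat.le_of_dvd h4 h3
    have h6 : m k = 0 := by
      have : 0 < Nat.card G * a i := Nat.mul_pos Nat.card_pos (S.ha i)
      omega
    have h7 : m i = Nat.card G * a k := by
      refine Nat.eq_of_mul_eq_mul_right (S.ha i) ?_
      rw [← hdi, ← hw, h6, zero_mul, add_zero]
    refine hext _ 0 h7 h6 _ (Finsupp.single_eq_same) (Finsupp.single_eq_of_ne hik.symm) ?_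
    intro l hl _
    exact Finsupp.single_eq_of_ne hl

omit [Finite G] in
theorem eval_span {i k : ι} {r : MvPolynomial ι ℂ}
    (hr : r ∈ Ideal.span ((X : ι → MvPolynomial ι ℂ) '' {l | l ≠ i ∧ l ≠ k})) {x : ι → ℂ}
    (hx : ∀ l, l ≠ i → l ≠ k → x l = 0) :
    eval x r = 0 ∧ eval x (pderiv i r) = 0 ∧ eval x (pderiv k r) = 0 := by
  unfold Ideal.span at hr
  induction hr using Submodule.span_induction with
  | mem y hy =>
    obtain ⟨l, hl, rfl⟩ := hy
    rw [pderiv_X_of_ne hl.1, pderiv_X_of_ne hl.2, eval_X, map_zero]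
    exact ⟨hx l hl.1 hl.2, rfl, rfl⟩
  | zero => simp
  | add y z _ _ hy hz =>
    rw [map_add, map_add, map_add, map_add, map_add, hy.1, hy.2.1, hy.2.2, hz.1, hz.2.1, hz.2.2]
    simp
  | smul p y _ hy =>
    rw [smul_eq_mul, Derivation.leibniz, Derivation.leibniz]
    simp only [smul_eq_mul, map_add, map_mul, hy.1, hy.2.1, hy.2.2]
    simp

/-- the equation on a coordinate line -/
theorem restrict (S : Setup a α d f) {i k : ι} (hik : i ≠ k)
    (hd : d = Nat.card G * a i * a k) : ∃ p q : ℂ, p ≠ 0 ∧ q ≠ 0 ∧
      ∀ x : ι → ℂ, (∀ l, l ≠ i → l ≠ k → x l = 0) →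
        eval x f = p * x i ^ (Nat.card G * a k) + q * x k ^ (Nat.card G * a i) ∧
        eval x (pderiv i f) * x i = p * (Nat.card G * a k : ℕ) * x i ^ (Nat.card G * a k) ∧
        eval x (pderiv k f) * x k = q * (Nat.card G * a i : ℕ) * x k ^ (Nat.card G * a i) := by
  have hA : 0 < Nat.card G * a k := Nat.mul_pos Nat.card_pos (S.ha k)
  have hB : 0 < Nat.card G * a i := Nat.mul_pos Nat.card_pos (S.ha i)
  have hpi := S.single_mem (i := i) (A := Nat.card G * a k) (by rw [hd]; ring)
  have hpk := S.single_mem (i := k) (A := Nat.card G * a i) hd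
  set A := Nat.card G * a k with hAdef
  set B := Nat.card G * a i with hBdef
  refine ⟨coeff (Finsupp.single i A) f, coeff (Finsupp.single k B) f, mem_support_iff.1 hpi,
    mem_support_iff.1 hpk, ?_⟩
  set p := coeff (Finsupp.single i A) f with hp
  set q := coeff (Finsupp.single k B) f with hq
  have hne : Finsupp.single i A ≠ Finsupp.single k B := by
    intro h
    have := DFunLike.congr_fun h i
    rw [Finsupp.single_eq_same, Finsupp.single_eq_of_ne hik] at this
    omega
  have hmem : f - C p * X i ^ A - C q * X k ^ B ∈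
      Ideal.span ((X : ι → MvPolynomial ι ℂ) '' {l | l ≠ i ∧ l ≠ k}) := by
    rw [mem_ideal_span_X_image]
    intro m hm
    by_contra hcon
    push Not at hcon
    have h0 : ∀ l, l ≠ i → l ≠ k → m l = 0 := fun l h1 h2 => hcon l ⟨h1, h2⟩
    have hc : coeff m (f - C p * X i ^ A - C q * X k ^ B) =
        coeff m f - (if Finsupp.single i A = m then p else 0)
          - (if Finsupp.single k B = m then q else 0) := by
      rw [coeff_sub, coeff_sub, coeff_C_mul, coeff_C_mul, coeff_X_pow, coeff_X_pow]
      congr 1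
      · congr 1
        split_ifs <;> simp
      · split_ifs <;> simp
    rw [mem_support_iff, hc] at hm
    by_cases h1 : Finsupp.single i A = m
    · rw [if_pos h1, if_neg (fun h2 => hne (h1.trans h2.symm)), ← h1, ← hp] at hm
      exact hm (by ring)
    · by_cases h2 : Finsupp.single k B = m
      · rw [if_neg h1, if_pos h2, ← h2, ← hq] at hm
        exact hm (by ring)
      · rw [if_neg h1, if_neg h2, sub_zero, sub_zero] at hm
        rcases S.support_pair hik hd (mem_support_iff.2 hm) h0 with h3 | h3
        · exact h1 h3.symm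
        · exact h2 h3.symm
  intro x hx
  obtain ⟨e1, e2, e3⟩ := eval_span hmem hx
  refine ⟨?_, ?_, ?_⟩
  · simp only [map_sub, map_mul, eval_C, map_pow, eval_X] at e1
    linear_combination e1
  · simp only [map_sub, Derivation.leibniz, pderiv_C, Derivation.leibniz_pow, pderiv_X_self,
      pderiv_X_of_ne hik.symm, smul_zero, add_zero, smul_eq_mul, mul_one, sub_zero, map_mul, eval_C,
      map_pow, eval_X, nsmul_eq_mul, map_natCast, mul_zero] at e2
    have h1 : x i ^ A = x i ^ (A - 1) * x i := by
      rw [← pow_succ, Nat.sub_add_cancel hA]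
    rw [h1]
    linear_combination x i * e2
  · simp only [map_sub, Derivation.leibniz, pderiv_C, Derivation.leibniz_pow, pderiv_X_self,
      pderiv_X_of_ne hik, smul_zero, add_zero, smul_eq_mul, mul_one, sub_zero, map_mul, eval_C,
      map_pow, eval_X, nsmul_eq_mul, map_natCast, mul_zero] at e3
    have h1 : x k ^ B = x k ^ (B - 1) * x k := by
      rw [← pow_succ, Nat.sub_add_cancel hB]
    rw [h1]
    linear_combination x k * e3

end Setup

end Pool.Agent.R920.WQ
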