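import Mathlib

/-!
# Two characters of `ℂˣ × G` which together are injective

`G` is a finite group, `a, b` are positive integers and `α, β` characters of `G`. The characters
`(t, h) ↦ t ^ a * α h` and `(t, h) ↦ t ^ b * β h` of `ℂˣ × G` are assumed to have trivial common
kernel. Then they generate the group of characters `(t, h) ↦ t ^ e * χ h`.
-/

set_option autoImplicit false

namespace Pool.Agent.R920.WQ

variable {G : Type} [Group G]

/-- the character `(t, h) ↦ t ^ a * α h` -/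
def gam (a : ℕ) (α : G →* ℂˣ) : ℂˣ × G →* ℂˣ :=
  (powMonoidHom a).comp (MonoidHom.fst ℂˣ G) * α.comp (MonoidHom.snd ℂˣ G)

theorem gam_apply (a : ℕ) (α : G →* ℂˣ) (x : ℂˣ × G) : gam a α x = x.1 ^ a * α x.2 := rfl

theorem exists_root {a : ℕ} (ha : 0 < a) (z : ℂˣ) : ∃ t : ℂˣ, t ^ a = z := by
  obtain ⟨y, hy⟩ := IsAlgClosed.exists_pow_nat_eq (z : ℂ) ha
  have hy0 : y ≠ 0 := by
    rintro rfl
    rw [zero_pow ha.ne'] at hy
    exact z.ne_zero hy.symm
  refine ⟨Units.mk0 y hy0, ?_⟩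
  ext
  simpa using hy

/-- the kernel of the character -/
noncomputable def kerEquiv {a : ℕ} (ha : 0 < a) (α : G →* ℂˣ) :
    (gam a α).ker ≃ rootsOfUnity a ℂ × G where
  toFun x := (⟨x.1.1 * (Classical.choose (exists_root ha (α x.1.2)⁻¹))⁻¹, by
    have h1 := Classical.choose_spec (exists_root ha (α x.1.2)⁻¹)
    have h2 : x.1.1 ^ a * α x.1.2 = 1 := x.2
    rw [mem_rootsOfUnity, mul_pow, inv_pow, h1, inv_inv, h2]⟩, x.1.2)
  invFun y := ⟨(y.1.1 * Classical.choose (exists_root ha (α y.2)⁻¹), y.2), by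
    have h1 := Classical.choose_spec (exists_root ha (α y.2)⁻¹)
    have h2 := (mem_rootsOfUnity a y.1.1).1 y.1.2
    change (y.1.1 * Classical.choose (exists_root ha (α y.2)⁻¹)) ^ a * α y.2 = 1
    rw [mul_pow, h1, h2, one_mul, inv_mul_cancel]⟩
  left_inv x := by
    refine Subtype.ext (Prod.ext ?_ rfl)
    simp
  right_inv y := by
    refine Prod.ext (Subtype.ext ?_) rfl
    simp

theorem finite_ker [Finite G] {a : ℕ} (ha : 0 < a) (α : G →* ℂˣ) : Finite (gam a α).ker := by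
  have : NeZero a := ⟨ha.ne'⟩
  exact Finite.of_equiv _ (kerEquiv ha α).symm

theorem card_ker {a : ℕ} (ha : 0 < a) (α : G →* ℂˣ) :
    Nat.card (gam a α).ker = a * Nat.card G := by
  have : NeZero a := ⟨ha.ne'⟩
  rw [Nat.card_congr (kerEquiv ha α), Nat.card_prod, Complex.card_rootsOfUnity]

/-- two characters with trivial common kernel -/
def Free (a b : ℕ) (α β : G →* ℂˣ) : Prop :=
  ∀ (t : ℂˣ) (h : G), t ^ a * α h = 1 → t ^ b * β h = 1 → t = 1 ∧ h = 1

theorem Free.symm {a b : ℕ} {α β : G →* ℂˣ} (h : Free a b α β) : Free b a β α :=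
  fun t g h1 h2 => h t g h2 h1

/-- the second character on the kernel of the first one -/
noncomputable def phi (a b : ℕ) (α β : G →* ℂˣ) : (gam a α).ker →* ℂˣ :=
  (gam b β).comp (gam a α).ker.subtype

theorem Free.inj {a b : ℕ} {α β : G →* ℂˣ} (h : Free a b α β) :
    Function.Injective (phi a b α β) := by
  rw [← MonoidHom.ker_eq_bot_iff, Subgroup.eq_bot_iff_forall]
  rintro ⟨⟨t, g⟩, hx⟩ hy
  have h1 : t ^ a * α g = 1 := hx
  have h2 : t ^ b * β g = 1 := hy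
  obtain ⟨rfl, rfl⟩ := h t g h1 h2
  rfl

/-- every character of the kernel is a power of the second character -/
theorem Free.char [Finite G] {a b : ℕ} (ha : 0 < a) {α β : G →* ℂˣ} (h : Free a b α β)
    (κ : (gam a α).ker →* ℂˣ) :
    ∃ v < a * Nat.card G, ∀ x, κ x = phi a b α β x ^ v := by
  have := finite_ker ha α
  have hc : IsCyclic (gam a α).ker := by
    refine isCyclic_of_subgroup_isDomain ((Units.coeHom ℂ).comp (phi a b α β)) ?_
    intro x y hxy
    exact h.inj (Units.ext hxy)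
  obtain ⟨σ, hσ⟩ := hc.exists_generator
  have ho : orderOf (phi a b α β σ) = a * Nat.card G := by
    rw [orderOf_injective _ h.inj, orderOf_eq_card_of_forall_mem_zpowers hσ, card_ker ha α]
  have hp : IsPrimitiveRoot ((phi a b α β σ : ℂˣ) : ℂ) (a * Nat.card G) := by
    rw [IsPrimitiveRoot.coe_units_iff, ← ho]
    exact IsPrimitiveRoot.orderOf _
  have hne : NeZero (a * Nat.card G) := ⟨(Nat.mul_pos ha Nat.card_pos).ne'⟩
  have h1 : (κ σ : ℂ) ^ (a * Nat.card G) = 1 := by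
    rw [← Units.val_pow_eq_pow_val, ← map_pow, ← card_ker ha α, pow_card_eq_one', map_one,
      Units.val_one]
  obtain ⟨v, hv, hv2⟩ := hp.eq_pow_of_pow_eq_one h1
  refine ⟨v, hv, fun x => ?_⟩
  obtain ⟨n, rfl⟩ := Subgroup.mem_zpowers_iff.1 (hσ x)
  have h2 : κ σ = phi a b α β σ ^ v := by
    ext
    rw [Units.val_pow_eq_pow_val]
    exact hv2.symm
  rw [map_zpow, map_zpow, h2, ← zpow_natCast, ← zpow_natCast, ← zpow_mul, ← zpow_mul, mul_comm]

/-- the character `(t, h) ↦ t ^ e * χ h` -/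
def gamZ (e : ℤ) (χ : G →* ℂˣ) : ℂˣ × G →* ℂˣ :=
  (zpowGroupHom e).comp (MonoidHom.fst ℂˣ G) * χ.comp (MonoidHom.snd ℂˣ G)

theorem gamZ_apply (e : ℤ) (χ : G →* ℂˣ) (x : ℂˣ × G) : gamZ e χ x = x.1 ^ e * χ x.2 := rfl

/-- the two characters generate all characters -/
theorem Free.exists_int [Finite G] {a b : ℕ} (ha : 0 < a) {α β : G →* ℂˣ} (h : Free a b α β)
    (e : ℤ) (χ : G →* ℂˣ) :
    ∃ v : ℕ, v < a * Nat.card G ∧ ∃ u : ℤ, e = u * a + v * b ∧
      ∀ g, χ g = α g ^ u * β g ^ v := by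
  obtain ⟨v, hv, hv2⟩ := h.char ha ((gamZ e χ).comp (gam a α).ker.subtype)
  have key : ∀ (t : ℂˣ) (g : G), t ^ a * α g = 1 → t ^ e * χ g = (t ^ b * β g) ^ v := by
    intro t g htg
    exact hv2 ⟨(t, g), htg⟩
  have hne : NeZero a := ⟨ha.ne'⟩
  -- the exponent is an integer
  obtain ⟨u, hu⟩ : (a : ℤ) ∣ e - v * b := by
    have hp := Complex.isPrimitiveRoot_exp a ha.ne'
    obtain ⟨ζ, hζ⟩ : ∃ ζ : ℂˣ, (ζ : ℂ) = Complex.exp (2 * Real.pi * Complex.I / a) :=
      ⟨Units.mk0 _ (Complex.exp_ne_zero _), rfl⟩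
    have hpζ : IsPrimitiveRoot ζ a := by
      rw [← IsPrimitiveRoot.coe_units_iff, hζ]
      exact hp
    have h1 := key ζ 1 (by rw [map_one, mul_one, hpζ.pow_eq_one])
    rw [map_one, map_one, mul_one, mul_one, ← pow_mul] at h1
    rw [← hpζ.zpow_eq_one_iff_dvd, zpow_sub, h1]
    have h2 : ζ ^ ((v : ℤ) * (b : ℤ)) = ζ ^ (b * v) := by
      rw [mul_comm (v : ℤ), ← Nat.cast_mul, zpow_natCast]
    rw [h2, mul_inv_cancel]
  refine ⟨v, hv, u, by linarith, fun g => ?_⟩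
  obtain ⟨t, ht⟩ := exists_root ha (α g)⁻¹
  have h1 := key t g (by rw [ht, inv_mul_cancel])
  have h2 : e = a * u + v * b := by linarith
  have h3 : t ^ e = (α g ^ u)⁻¹ * (t ^ b) ^ v := by
    rw [h2, zpow_add, zpow_mul, zpow_natCast, ht, inv_zpow]
    congr 1
    rw [← pow_mul, ← zpow_natCast, Nat.cast_mul, mul_comm (v : ℤ)]
  rw [h3, mul_pow, mul_assoc] at h1
  have h4 : (α g ^ u)⁻¹ * χ g = β g ^ v := by
    have h5 : (t ^ b) ^ v * ((α g ^ u)⁻¹ * χ g) = (t ^ b) ^ v * β g ^ v := by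
      rw [← h1]
      rw [← mul_assoc, ← mul_assoc, mul_comm ((t ^ b) ^ v) (α g ^ u)⁻¹]
    exact mul_left_cancel h5
  rw [← h4, ← mul_assoc, mul_inv_cancel, one_mul]

/-- large degrees -/
theorem Free.exists_nat [Finite G] {a b : ℕ} (ha : 0 < a) {α β : G →* ℂˣ} (h : Free a b α β)
    (e : ℕ) (χ : G →* ℂˣ) (he : Nat.card G * a * b + 1 ≤ e + a + b) :
    ∃ u v : ℕ, e = u * a + v * b ∧ ∀ g, χ g = α g ^ u * β g ^ v := by
  obtain ⟨v, hv, u, h1, h2⟩ := h.exists_int ha (e : ℤ) χ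
  have hu : 0 ≤ u := by
    by_contra hcon
    have h3 : u ≤ -1 := by omega
    have h4 : u * a ≤ -1 * a := mul_le_mul_of_nonneg_right h3 (by positivity)
    have h5 : ((v : ℤ) + 1) * b ≤ (a * Nat.card G : ℕ) * b := by
      refine mul_le_mul_of_nonneg_right ?_ (by positivity)
      exact_mod_cast hv
    have h6 : ((Nat.card G * a * b + 1 : ℕ) : ℤ) ≤ ((e + a + b : ℕ) : ℤ) := by exact_mod_cast he
    push_cast at h5 h6
    nlinarith
  obtain ⟨n, rfl⟩ := Int.eq_ofNat_of_zero_le hu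
  refine ⟨n, v, by exact_mod_cast h1, fun g => ?_⟩
  rw [h2 g]
  simp

/-- relations between the two characters -/
theorem Free.dvd [Finite G] {a b : ℕ} (ha : 0 < a) {α β : G →* ℂˣ} (h : Free a b α β)
    {s r : ℕ} (hs : s * a = r * b) (hsr : ∀ g, α g ^ s = β g ^ r) : a * Nat.card G ∣ r := by
  have := finite_ker ha α
  have hc : IsCyclic (gam a α).ker := by
    refine isCyclic_of_subgroup_isDomain ((Units.coeHom ℂ).comp (phi a b α β)) ?_
    intro x y hxy
    exact h.inj (Units.ext hxy)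
  obtain ⟨σ, hσ⟩ := hc.exists_generator
  rw [← card_ker ha α, ← orderOf_eq_card_of_forall_mem_zpowers hσ,
    ← orderOf_injective _ h.inj]
  refine orderOf_dvd_of_pow_eq_one ?_
  obtain ⟨⟨t, g⟩, hx⟩ := σ
  have h1 : t ^ a * α g = 1 := hx
  change (t ^ b * β g) ^ r = 1
  rw [mul_pow, ← pow_mul, ← hsr g, mul_comm b r, ← hs, mul_comm s a, pow_mul, ← mul_pow, h1,
    one_pow]

/-- the values of the two characters -/
theorem Free.exists_values [Finite G] {a b : ℕ} (ha : 0 < a) {α β : G →* ℂˣ}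
    (h : Free a b α β) (z w : ℂˣ) (hzw : z ^ (b * Nat.card G) = w ^ (a * Nat.card G)) :
    ∃ (t : ℂˣ) (g : G), t ^ a * α g = z ∧ t ^ b * β g = w := by
  have := finite_ker ha α
  obtain ⟨t0, ht0⟩ := exists_root ha z
  -- the second character is onto the roots of unity
  have hne : NeZero (a * Nat.card G) := ⟨(Nat.mul_pos ha Nat.card_pos).ne'⟩
  have hsurj : ∀ ζ : ℂˣ, ζ ^ (a * Nat.card G) = 1 → ∃ x, phi a b α β x = ζ := by
    let F : (gam a α).ker → rootsOfUnity (a * Nat.card G) ℂ := fun x => ⟨phi a b α β x, by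
      rw [mem_rootsOfUnity, ← map_pow, ← card_ker ha α, pow_card_eq_one', map_one]⟩
    have hF : Function.Injective F := fun x y hxy => h.inj (congrArg Subtype.val hxy)
    have hFb : Function.Bijective F := by
      rw [Nat.bijective_iff_injective_and_card]
      refine ⟨hF, ?_⟩
      rw [card_ker ha α, Complex.card_rootsOfUnity]
    intro ζ hζ
    obtain ⟨x, hx⟩ := hFb.2 ⟨ζ, (mem_rootsOfUnity _ _).2 hζ⟩
    exact ⟨x, congrArg Subtype.val hx⟩
  obtain ⟨⟨⟨t, g⟩, hx⟩, hx2⟩ := hsurj (w * (t0 ^ b)⁻¹) (by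
    rw [mul_pow, inv_pow, ← hzw, ← pow_mul, ← ht0, ← pow_mul, ← mul_assoc, ← mul_assoc,
      mul_comm a b, mul_inv_cancel])
  have h1 : t ^ a * α g = 1 := hx
  have h2 : t ^ b * β g = w * (t0 ^ b)⁻¹ := hx2
  refine ⟨t0 * t, g, ?_, ?_⟩
  · rw [mul_pow, mul_assoc, h1, mul_one, ht0]
  · rw [mul_pow, mul_assoc, h2, mul_comm w, ← mul_assoc, mul_inv_cancel, one_mul]

end Pool.Agent.R920.WQ
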