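import Pool.Agent.R920.WQ.Setup

/-!
# The sections in two and three variables
-/

set_option autoImplicit false

namespace Pool.Agent.R920.WQ

open MvPolynomial Pool.Agent.R920.WC

variable {G : Type} [Group G] {ι : Type} [Fintype ι] [DecidableEq ι]

/-- forms of weighted degree `e` on which `G` acts by the character `χ` -/
def IsSec (a : ι → ℕ) (α : ι → G →* ℂˣ) (e : ℕ) (χ : G →* ℂˣ) (s : MvPolynomial ι ℂ) : Prop :=
  IsWeightedHomogeneous a s e ∧
    ∀ (g : G) (x : ι → ℂ), eval (fun i => (α i g : ℂ) * x i) s = χ g * eval x s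

theorem IsSec.sub {a : ι → ℕ} {α : ι → G →* ℂˣ} {e : ℕ} {χ : G →* ℂˣ} {s s' : MvPolynomial ι ℂ}
    (h : IsSec a α e χ s) (h' : IsSec a α e χ s') : IsSec a α e χ (s - s') := by
  refine ⟨(weightedHomogeneousSubmodule ℂ a e).sub_mem h.1 h'.1, fun g x => ?_⟩
  rw [map_sub, map_sub, h.2, h'.2, mul_sub]

theorem IsSec.smul {a : ι → ℕ} {α : ι → G →* ℂˣ} {e : ℕ} {χ : G →* ℂˣ} {s : MvPolynomial ι ℂ}
    (h : IsSec a α e χ s) (c : ℂ) : IsSec a α e χ (C c * s) := by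
  refine ⟨?_, fun g x => ?_⟩
  · have := (isWeightedHomogeneous_C a c).mul h.1
    rwa [zero_add] at this
  · rw [map_mul, map_mul, h.2, eval_C, eval_C]
    ring

theorem isSec_pair {a : ι → ℕ} {α : ι → G →* ℂˣ} {e : ℕ} {χ : G →* ℂˣ} {i k : ι} {u v : ℕ}
    (h1 : e = u * a i + v * a k) (h2 : ∀ g, χ g = α i g ^ u * α k g ^ v) :
    IsSec a α e χ (X i ^ u * X k ^ v) := by
  refine ⟨?_, fun g x => ?_⟩
  · have := ((isWeightedHomogeneous_X ℂ a i).pow u).mul ((isWeightedHomogeneous_X ℂ a k).pow v)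
    rw [h1]
    simpa using this
  · simp only [map_mul, map_pow, eval_X]
    rw [h2 g, Units.val_mul, Units.val_pow_eq_pow_val, Units.val_pow_eq_pow_val, mul_pow, mul_pow]
    ring

theorem isSec_triple {a : ι → ℕ} {α : ι → G →* ℂˣ} {e : ℕ} {χ : G →* ℂˣ} {l i k : ι} {u v : ℕ}
    (h1 : e = a l + (u * a i + v * a k)) (h2 : ∀ g, χ g = α l g * (α i g ^ u * α k g ^ v)) :
    IsSec a α e χ (X l * (X i ^ u * X k ^ v)) := by
  refine ⟨?_, fun g x => ?_⟩
  · have := (isWeightedHomogeneous_X ℂ a l).mul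
      (((isWeightedHomogeneous_X ℂ a i).pow u).mul ((isWeightedHomogeneous_X ℂ a k).pow v))
    rw [h1]
    simpa using this
  · simp only [map_mul, map_pow, eval_X]
    rw [h2 g, Units.val_mul, Units.val_mul, Units.val_pow_eq_pow_val, Units.val_pow_eq_pow_val,
      mul_pow, mul_pow]
    ring

theorem num_arith {g A B M W e d : ℕ} (hg : 2 ≤ g) (hA : 0 < A) (hB : 0 < B) (hM : 0 < M)
    (hd : d = M * (g * A * B)) (hW : 1 + W ≤ M) (he : d ≤ e + ((A - 1) + (B - 1) + W)) :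
    g * A * B + 1 ≤ e + A + B ∧
      (∀ l : ℕ, 1 ≤ l → l ≤ M → g * A * B + 1 + l ≤ e + A + B) ∧
      (2 ≤ M → 2 * (g * A * B) + 1 ≤ e + A + B) ∧
      (e + B ≤ g * A * B → M = 1 ∧ 2 ≤ A) := by
  have hAB : 1 ≤ A * B := Nat.mul_pos hA hB
  have hQ : 2 ≤ g * A * B := by
    rw [mul_assoc]
    calc 2 = 2 * 1 := rfl
      _ ≤ g * (A * B) := Nat.mul_le_mul hg hAB
  have hQA : 2 * A ≤ g * A * B := by
    calc 2 * A = 2 * A * 1 := by ring
      _ ≤ g * A * B := Nat.mul_le_mul (Nat.mul_le_mul_right _ hg) hB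
  obtain ⟨m, rfl⟩ : ∃ m, M = m + 1 := ⟨M - 1, by omega⟩
  set Q := g * A * B with hQdef
  have hd' : d = m * Q + Q := by rw [hd]; ring
  have hm : m * 2 ≤ m * Q := Nat.mul_le_mul_left _ hQ
  refine ⟨by omega, fun l hl hlM => by omega, fun h2 => ?_, fun h => ?_⟩
  · obtain ⟨n, rfl⟩ : ∃ n, m = n + 1 := ⟨m - 1, by omega⟩
    have hn : n * 2 ≤ n * Q := Nat.mul_le_mul_left _ hQ
    have hd2 : d = n * Q + Q + Q := by rw [hd']; ring
    omega
  · rcases Nat.eq_zero_or_pos m with h0 | h0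
    · subst h0
      refine ⟨rfl, ?_⟩
      omega
    · exfalso
      obtain ⟨n, rfl⟩ : ∃ n, m = n + 1 := ⟨m - 1, by omega⟩
      have hn : n * 2 ≤ n * Q := Nat.mul_le_mul_left _ hQ
      have hd2 : d = n * Q + Q + Q := by rw [hd']; ring
      omega

namespace Setup

variable {a : ι → ℕ} {α : ι → G →* ℂˣ} {d : ℕ} {f : MvPolynomial ι ℂ} [Finite G]

theorem num (S : Setup a α d f) {e : ℕ} (he : d ≤ e + ∑ l, (a l - 1)) {i k : ι} (hik : i ≠ k) :
    ∃ M, d = M * (Nat.card G * a i * a k) ∧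
      (Nat.card G * a i * a k + 1 ≤ e + a i + a k) ∧
      (∀ l, l ≠ i → l ≠ k → Nat.card G * a i * a k + 1 + a l ≤ e + a i + a k) ∧
      (2 ≤ M → 2 * (Nat.card G * a i * a k) + 1 ≤ e + a i + a k) ∧
      (∀ l, l ≠ i → l ≠ k → a l ∣ M) ∧
      (e + a k ≤ Nat.card G * a i * a k → M = 1 ∧ 2 ≤ a i) := by
  obtain ⟨M, h1, hM, h2⟩ := S.dvd_all hik
  set T : Finset ι := Finset.univ.filter (fun m => m ≠ i ∧ m ≠ k) with hT
  have h3 := one_add_sum_le_prod T a (fun m _ => S.ha m)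
  have h4 : ∏ m ∈ T, a m ≤ M := Nat.le_of_dvd hM h2
  have h5 : ∑ l, (a l - 1) = (a i - 1) + (a k - 1) + ∑ l ∈ T, (a l - 1) := by
    rw [← Finset.add_sum_erase _ _ (Finset.mem_univ i),
      ← Finset.add_sum_erase _ _ (Finset.mem_erase.2 ⟨hik.symm, Finset.mem_univ k⟩), ← add_assoc]
    congr 1
    refine Finset.sum_congr ?_ fun _ _ => rfl
    ext m
    simp only [Finset.mem_erase, Finset.mem_univ, and_true, hT, Finset.mem_filter, true_and]
    tauto
  have hdvd : ∀ l, l ≠ i → l ≠ k → a l ∣ M := by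
    intro l hli hlk
    refine dvd_trans (Finset.dvd_prod_of_mem _ ?_) h2
    rw [hT, Finset.mem_filter]
    exact ⟨Finset.mem_univ _, hli, hlk⟩
  obtain ⟨n1, n2, n3, n4⟩ := num_arith S.two_le (S.ha i) (S.ha k) hM h1 (h3.trans h4)
    (by rw [← h5]; exact he)
  exact ⟨M, h1, n1, fun l hli hlk => n2 _ (S.ha l) (Nat.le_of_dvd hM (hdvd l hli hlk)), n3, hdvd,
    n4⟩

/-- a section in two given variables -/
theorem sec_two (S : Setup a α d f) {e : ℕ} (he : d ≤ e + ∑ l, (a l - 1)) (χ : G →* ℂˣ)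
    {i k : ι} (hik : i ≠ k) :
    ∃ u v : ℕ, e = u * a i + v * a k ∧ ∀ g, χ g = α i g ^ u * α k g ^ v := by
  obtain ⟨M, _, h, _⟩ := S.num he hik
  exact (S.free hik).exists_nat (S.ha i) e χ h

/-- a section in three given variables -/
theorem sec_three (S : Setup a α d f) {e : ℕ} (he : d ≤ e + ∑ l, (a l - 1)) (χ : G →* ℂˣ)
    {i k l : ι} (hik : i ≠ k) (hli : l ≠ i) (hlk : l ≠ k) :
    ∃ u v : ℕ, e = a l + (u * a i + v * a k) ∧
      ∀ g, χ g = α l g * (α i g ^ u * α k g ^ v) := by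
  obtain ⟨M, _, _, h, _⟩ := S.num he hik
  have h1 := h l hli hlk
  have h2 := (S.free hik).exists_int (S.ha i) 1 1
  have hle : a l ≤ e := by
    -- `a i + a k ≤ g * a i * a k + 1`
    have h3 : a i + a k ≤ Nat.card G * a i * a k + 1 := by
      obtain ⟨x, hx⟩ : ∃ x, a i = x + 1 := ⟨a i - 1, by have := S.ha i; omega⟩
      obtain ⟨y, hy⟩ : ∃ y, a k = y + 1 := ⟨a k - 1, by have := S.ha k; omega⟩
      obtain ⟨z, hz⟩ : ∃ z, Nat.card G = z + 1 := ⟨Nat.card G - 1, by have := S.two_le; omega⟩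
      rw [hx, hy, hz]
      nlinarith [Nat.zero_le (x * y), Nat.zero_le (z * (x + 1) * (y + 1))]
    omega
  obtain ⟨e', rfl⟩ : ∃ e', e = a l + e' := ⟨e - a l, by omega⟩
  obtain ⟨u, v, h3, h4⟩ := (S.free hik).exists_nat (S.ha i) e' (χ * (α l)⁻¹) (by omega)
  refine ⟨u, v, by rw [h3], fun g => ?_⟩
  have h5 := h4 g
  rw [MonoidHom.mul_apply, MonoidHom.inv_apply] at h5
  rw [← h5, mul_comm, mul_assoc, inv_mul_cancel, mul_one]

theorem pow_card (γ : G →* ℂˣ) (g : G) (n : ℕ) : γ g ^ (Nat.card G * n) = 1 := by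
  rw [pow_mul, ← map_pow, pow_card_eq_one', map_one, one_pow]

/-- two neighbouring sections in two given variables -/
theorem sec_shift (S : Setup a α d f) {e : ℕ} (he : d ≤ e + ∑ l, (a l - 1)) (χ : G →* ℂˣ)
    {i k : ι} (hik : i ≠ k) (hne : d ≠ Nat.card G * a i * a k) :
    ∃ u v : ℕ, (e = (u + Nat.card G * a k) * a i + v * a k ∧
        ∀ g, χ g = α i g ^ (u + Nat.card G * a k) * α k g ^ v) ∧
      (e = u * a i + (v + Nat.card G * a i) * a k ∧
        ∀ g, χ g = α i g ^ u * α k g ^ (v + Nat.card G * a i)) := by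
  obtain ⟨M, hM, h0, _, h, _⟩ := S.num he hik
  have hM2 : 2 ≤ M := by
    have hd := S.hd
    rcases Nat.lt_or_ge M 2 with h1 | h1
    · exfalso
      interval_cases M
      · omega
      · exact hne (by rw [hM, one_mul])
    · exact h1
  have h1 := h hM2
  have hle : Nat.card G * a i * a k ≤ e := by
    have h3 : a i + a k ≤ Nat.card G * a i * a k + 1 := by
      obtain ⟨x, hx⟩ : ∃ x, a i = x + 1 := ⟨a i - 1, by have := S.ha i; omega⟩
      obtain ⟨y, hy⟩ : ∃ y, a k = y + 1 := ⟨a k - 1, by have := S.ha k; omega⟩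
      obtain ⟨z, hz⟩ : ∃ z, Nat.card G = z + 1 := ⟨Nat.card G - 1, by have := S.two_le; omega⟩
      rw [hx, hy, hz]
      nlinarith [Nat.zero_le (x * y), Nat.zero_le (z * (x + 1) * (y + 1))]
    omega
  obtain ⟨e', rfl⟩ : ∃ e', e = Nat.card G * a i * a k + e' := ⟨e - Nat.card G * a i * a k, by omega⟩
  obtain ⟨u, v, h3, h4⟩ := (S.free hik).exists_nat (S.ha i) e' χ (by omega)
  refine ⟨u, v, ⟨by rw [h3]; ring, fun g => ?_⟩, ⟨by rw [h3]; ring, fun g => ?_⟩⟩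
  · rw [pow_add, pow_card, mul_one]
    exact h4 g
  · rw [pow_add, pow_card, mul_one]
    exact h4 g

end Setup

end Pool.Agent.R920.WQ
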