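import Pool.Agent.R920.WQ.Form

/-!
# Points are separated
-/

set_option autoImplicit false

namespace Pool.Agent.R920.WQ

open MvPolynomial Pool.Agent.R920.WC

variable {G : Type} [Group G] {ι : Type} [Fintype ι] [DecidableEq ι]

namespace Setup

variable {a : ι → ℕ} {α : ι → G →* ℂˣ} {d : ℕ} {f : MvPolynomial ι ℂ}

/-- a point of the hypersurface has two nonzero coordinates -/
theorem two_supp (S : Setup a α d f) {v : ι → ℂ} (hv : v ≠ 0) (hfv : eval v f = 0) (i : ι) :
    ∃ k, k ≠ i ∧ v k ≠ 0 := by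
  by_contra hcon
  push Not at hcon
  have h1 : v = Pi.single i (v i) := by
    funext j
    by_cases hj : j = i
    · subst hj
      rw [Pi.single_eq_same]
    · rw [Pi.single_eq_of_ne hj, hcon j hj]
  have hvi : v i ≠ 0 := by
    intro h
    rw [h, Pi.single_zero] at h1
    exact hv h1
  obtain ⟨s, _, hs⟩ := S.exists_pow i
  rw [h1, hs] at hfv
  exact mul_ne_zero (pow_ne_zero _ hvi) (S.eval_single i) hfv

variable [Finite G]

/-- there are no base points -/
theorem bpf (S : Setup a α d f) {e : ℕ} (he : d ≤ e + ∑ l, (a l - 1)) (χ : G →* ℂˣ)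
    {v : ι → ℂ} (hv : v ≠ 0) (hfv : eval v f = 0) : ∃ s, IsSec a α e χ s ∧ eval v s ≠ 0 := by
  obtain ⟨i, hi⟩ : ∃ i, v i ≠ 0 := by
    by_contra hcon
    push Not at hcon
    exact hv (funext hcon)
  obtain ⟨k, hki, hk⟩ := S.two_supp hv hfv i
  obtain ⟨u, n, h1, h2⟩ := S.sec_two he χ hki.symm
  refine ⟨_, isSec_pair h1 h2, ?_⟩
  simp only [map_mul, map_pow, eval_X]
  exact mul_ne_zero (pow_ne_zero _ hi) (pow_ne_zero _ hk)

theorem supp_three (S : Setup a α d f) {e : ℕ} (he : d ≤ e + ∑ l, (a l - 1)) (χ : G →* ℂˣ)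
    {v w : ι → ℂ} {c : ℂ} (hc : ∀ s, IsSec a α e χ s → eval w s = c * eval v s)
    {l i k : ι} (hik : i ≠ k) (hli : l ≠ i) (hlk : l ≠ k) (hwl : w l ≠ 0) (hwi : w i ≠ 0)
    (hwk : w k ≠ 0) (hvl : v l = 0) : False := by
  obtain ⟨u, n, h1, h2⟩ := S.sec_three he χ hik hli hlk
  have h3 := hc _ (isSec_triple h1 h2)
  simp only [map_mul, map_pow, eval_X] at h3
  rw [hvl, zero_mul, mul_zero] at h3
  exact mul_ne_zero hwl (mul_ne_zero (pow_ne_zero _ hwi) (pow_ne_zero _ hwk)) h3

/-- points which are not separated have the same nonzero coordinates -/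
theorem supp (S : Setup a α d f) {e : ℕ} (he : d ≤ e + ∑ l, (a l - 1)) (χ : G →* ℂˣ)
    {v w : ι → ℂ} (hv : v ≠ 0) (hw : w ≠ 0) (hfv : eval v f = 0) (hfw : eval w f = 0)
    {c : ℂ} (hc0 : c ≠ 0) (hc : ∀ s, IsSec a α e χ s → eval w s = c * eval v s)
    {l : ι} (hwl : w l ≠ 0) (hvl : v l = 0) : False := by
  have hc' : ∀ s, IsSec a α e χ s → eval v s = c⁻¹ * eval w s := by
    intro s hs
    rw [hc s hs, ← mul_assoc, inv_mul_cancel₀ hc0, one_mul]
  obtain ⟨k, hkl, hwk⟩ := S.two_supp hw hfw l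
  have h3 : ∀ k', k' ≠ l → k' ≠ k → w k' = 0 := by
    intro k' h1 h2
    by_contra h
    exact S.supp_three he χ hc h2.symm hkl.symm h1.symm hwl hwk h hvl
  obtain ⟨u, n, h1, h2⟩ := S.sec_two he χ hkl.symm
  have h4 := hc _ (isSec_pair h1 h2)
  simp only [map_mul, map_pow, eval_X] at h4
  have hne : w l ^ u * w k ^ n ≠ 0 := mul_ne_zero (pow_ne_zero _ hwl) (pow_ne_zero _ hwk)
  have hu : u = 0 := by
    by_contra h
    rw [hvl, zero_pow h, zero_mul, mul_zero] at h4
    exact hne h4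
  subst hu
  obtain ⟨M, hM, hn1, _, _, hdvd, hn4⟩ := S.num he hkl.symm
  have hn : n ≠ 0 := by
    rintro rfl
    rw [zero_mul, zero_mul, add_zero] at h1
    subst h1
    have hg := S.two_le
    have h5 : a l ≤ a l * a k := Nat.le_mul_of_pos_right _ (S.ha k)
    have h6 : a k ≤ a l * a k := Nat.le_mul_of_pos_left _ (S.ha l)
    have h7 : 2 * (a l * a k) ≤ Nat.card G * a l * a k := by
      rw [mul_assoc]
      exact Nat.mul_le_mul_right _ hg
    omega
  have hvk : v k ≠ 0 := by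
    intro h
    rw [h, zero_pow hn, mul_zero, mul_zero] at h4
    exact hne h4
  obtain ⟨k', hk'k, hvk'⟩ := S.two_supp hv hfv k
  have hk'l : k' ≠ l := by
    rintro rfl
    exact hvk' hvl
  have hwk' : w k' = 0 := h3 k' hk'l hk'k
  have h2' : ∀ g, χ g = α k g ^ n := by
    intro g
    rw [h2 g, pow_zero, one_mul]
  have h1' : e = n * a k := by rw [h1, zero_mul, zero_add]
  -- a long power can be exchanged
  have hexch : ∀ (j : ι) (x y : ι → ℂ) (b : ℂ),
      (∀ s, IsSec a α e χ s → eval x s = b * eval y s) → x j ≠ 0 → x k ≠ 0 → y j = 0 →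
      n < Nat.card G * a j := by
    intro j x y b hb hxj hxk hyj
    by_contra hcon
    push Not at hcon
    have h5 : e = (Nat.card G * a k) * a j + (n - Nat.card G * a j) * a k := by
      rw [h1', Nat.sub_mul]
      have h6 : Nat.card G * a j * a k ≤ n * a k := Nat.mul_le_mul_right _ hcon
      have h7 : Nat.card G * a k * a j = Nat.card G * a j * a k := by ring
      omega
    have h6 : ∀ g, χ g = α j g ^ (Nat.card G * a k) * α k g ^ (n - Nat.card G * a j) := by
      intro g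
      rw [h2' g, pow_card, one_mul]
      conv_lhs => rw [← Nat.sub_add_cancel hcon, pow_add, pow_card, mul_one]
    have h7 := hb _ (isSec_pair h5 h6)
    simp only [map_mul, map_pow, eval_X] at h7
    have h8 : Nat.card G * a k ≠ 0 := (Nat.mul_pos Nat.card_pos (S.ha k)).ne'
    rw [hyj, zero_pow h8, zero_mul, mul_zero] at h7
    exact mul_ne_zero (pow_ne_zero _ hxj) (pow_ne_zero _ hxk) h7
  have hlt1 := hexch l w v c hc hwl hwk hvl
  have hlt2 := hexch k' v w c⁻¹ hc' hvk' hvk hwk'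
  have hbound : ∀ j, n < Nat.card G * a j → e + a k ≤ Nat.card G * a j * a k := by
    intro j hj
    rw [h1']
    calc n * a k + a k = (n + 1) * a k := by ring
      _ ≤ Nat.card G * a j * a k := Nat.mul_le_mul_right _ hj
  have h5 := hn4 (hbound l hlt1)
  have h6 := hdvd k' hk'l hk'k
  rw [h5.1, Nat.dvd_one] at h6
  obtain ⟨M', _, _, _, _, _, hn4'⟩ := S.num he hk'k
  have h7 := (hn4' (hbound k' hlt2)).2
  omega

theorem rel_shift (S : Setup a α d f) {e : ℕ} (he : d ≤ e + ∑ l, (a l - 1)) (χ : G →* ℂˣ)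
    {z : ι → ℂˣ} {c : ℂ}
    {i k : ι} (hik : i ≠ k)
    (hval : ∀ u n : ℕ, e = u * a i + n * a k → (∀ g, χ g = α i g ^ u * α k g ^ n) →
      (z i : ℂ) ^ u * (z k : ℂ) ^ n = c)
    (hne : d ≠ Nat.card G * a i * a k) :
    z i ^ (Nat.card G * a k) = z k ^ (Nat.card G * a i) := by
  obtain ⟨u, n, ⟨h1, h2⟩, h3, h4⟩ := S.sec_shift he χ hik hne
  have h5 := hval _ _ h1 h2
  have h6 := hval _ _ h3 h4
  have h7 : z i ^ (u + Nat.card G * a k) * z k ^ n = z i ^ u * z k ^ (n + Nat.card G * a i) := by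
    ext
    push_cast
    rw [h5, h6]
  rw [pow_add, pow_add, mul_assoc, mul_comm (z k ^ n) (z k ^ (Nat.card G * a i)), ← mul_assoc,
    ← mul_assoc] at h7
  have h8 := mul_right_cancel h7
  exact mul_left_cancel h8

theorem rel_form (S : Setup a α d f) {v w : ι → ℂ} (hfv : eval v f = 0) (hfw : eval w f = 0)
    {z : ι → ℂˣ} (hz : ∀ l, w l = (z l : ℂ) * v l) {i k : ι} (hik : i ≠ k) (hvi : v i ≠ 0)
    (h0 : ∀ l, l ≠ i → l ≠ k → v l = 0) (hd : d = Nat.card G * a i * a k) :
    z i ^ (Nat.card G * a k) = z k ^ (Nat.card G * a i) := by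
  obtain ⟨p, q, hp, hq, h⟩ := S.restrict hik hd
  have h1 := (h v h0).1
  have h2 := (h w (fun l h3 h4 => by rw [hz l, h0 l h3 h4, mul_zero])).1
  rw [hfv] at h1
  rw [hfw, hz i, hz k, mul_pow, mul_pow] at h2
  have h3 : p * v i ^ (Nat.card G * a k) *
      ((z i : ℂ) ^ (Nat.card G * a k) - (z k : ℂ) ^ (Nat.card G * a i)) = 0 := by
    linear_combination -h2 + (z k : ℂ) ^ (Nat.card G * a i) * h1
  have h4 := (mul_eq_zero.1 h3).resolve_left (mul_ne_zero hp (pow_ne_zero _ hvi))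
  ext
  push_cast
  exact sub_eq_zero.1 h4

/-- a good pair of coordinates -/
theorem exists_pair (S : Setup a α d f) (hM : ∃ l, 2 ≤ a l) {v : ι → ℂ} (hv : v ≠ 0)
    (hfv : eval v f = 0) : ∃ i k, i ≠ k ∧ v i ≠ 0 ∧ v k ≠ 0 ∧
      (d ≠ Nat.card G * a i * a k ∨ ∀ l, l ≠ i → l ≠ k → v l = 0) := by
  obtain ⟨i, hi⟩ : ∃ i, v i ≠ 0 := by
    by_contra hcon
    push Not at hcon
    exact hv (funext hcon)
  obtain ⟨k, hki, hk⟩ := S.two_supp hv hfv i
  by_cases h3 : ∀ l, l ≠ i → l ≠ k → v l = 0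
  · exact ⟨i, k, hki.symm, hi, hk, Or.inr h3⟩
  · push Not at h3
    obtain ⟨l, hli, hlk, hl⟩ := h3
    by_cases hd : d = Nat.card G * a i * a k
    · obtain ⟨M, hM1, hMp, hM2⟩ := S.dvd_all hki.symm
      have hpos : 0 < Nat.card G * a i * a k :=
        Nat.mul_pos (Nat.mul_pos Nat.card_pos (S.ha i)) (S.ha k)
      have hM3 : M = 1 := by
        have h4 : M * (Nat.card G * a i * a k) = 1 * (Nat.card G * a i * a k) := by
          rw [← hM1, one_mul]
          exact hd
        exact Nat.eq_of_mul_eq_mul_right hpos h4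
      have hone : ∀ m, m ≠ i → m ≠ k → a m = 1 := by
        intro m h4 h5
        have h6 := Finset.dvd_prod_of_mem a
          (show m ∈ Finset.univ.filter (fun m => m ≠ i ∧ m ≠ k) by simp [h4, h5])
        have h7 := h6.trans hM2
        rwa [hM3, Nat.dvd_one] at h7
      obtain ⟨l0, hl0⟩ := hM
      have hl1 := hone l hli hlk
      have hcases : l0 = i ∨ l0 = k := by
        by_contra hcon
        push Not at hcon
        have := hone l0 hcon.1 hcon.2
        omega
      rcases hcases with rfl | rfl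
      · refine ⟨k, l, hlk.symm, hk, hl, Or.inl ?_⟩
        intro h4
        rw [hd, hl1, mul_one, mul_right_comm] at h4
        have h5 : Nat.card G * a k * a l0 = Nat.card G * a k * 1 := by rw [h4, mul_one]
        have h6 := Nat.eq_of_mul_eq_mul_left (Nat.mul_pos Nat.card_pos (S.ha k)) h5
        omega
      · refine ⟨i, l, hli.symm, hi, hl, Or.inl ?_⟩
        intro h4
        rw [hd, hl1, mul_one] at h4
        have h5 : Nat.card G * a i * a l0 = Nat.card G * a i * 1 := by rw [h4, mul_one]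
        have h6 := Nat.eq_of_mul_eq_mul_left (Nat.mul_pos Nat.card_pos (S.ha i)) h5
        omega
    · exact ⟨i, k, hki.symm, hi, hk, Or.inl hd⟩

/-- points are separated -/
theorem pts (S : Setup a α d f) (hM : ∃ l, 2 ≤ a l) {e : ℕ} (he : d ≤ e + ∑ l, (a l - 1))
    (χ : G →* ℂˣ) {v w : ι → ℂ} (hv : v ≠ 0) (hw : w ≠ 0) (hfv : eval v f = 0)
    (hfw : eval w f = 0) (H : ∀ s, IsSec a α e χ s → eval v s = 0 → eval w s = 0) :
    ∃ (t : ℂˣ) (g : G), ∀ l, w l = (t : ℂ) ^ a l * ((α l g : ℂ) * v l) := by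
  obtain ⟨s0, hs0, hs0v⟩ := S.bpf he χ hv hfv
  have hc : ∀ s, IsSec a α e χ s → eval w s = eval w s0 / eval v s0 * eval v s := by
    intro s hs
    have h1 := H _ (hs.sub (hs0.smul (eval v s / eval v s0))) (by
      rw [map_sub, map_mul, eval_C, div_mul_cancel₀ _ hs0v, sub_self])
    rw [map_sub, map_mul, eval_C] at h1
    rw [sub_eq_zero.1 h1]
    ring
  set c := eval w s0 / eval v s0 with hcdef
  have hc0 : c ≠ 0 := by
    obtain ⟨s1, hs1, hs1w⟩ := S.bpf he χ hw hfw
    intro h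
    rw [hc s1 hs1, h, zero_mul] at hs1w
    exact hs1w rfl
  have hc' : ∀ s, IsSec a α e χ s → eval v s = c⁻¹ * eval w s := by
    intro s hs
    rw [hc s hs, ← mul_assoc, inv_mul_cancel₀ hc0, one_mul]
  have hsupp : ∀ l, w l ≠ 0 → v l ≠ 0 := fun l h1 h2 => S.supp he χ hv hw hfv hfw hc0 hc h1 h2
  have hsupp' : ∀ l, v l ≠ 0 → w l ≠ 0 := fun l h1 h2 =>
    S.supp he χ hw hv hfw hfv (inv_ne_zero hc0) hc' h1 h2
  obtain ⟨z, hz⟩ : ∃ z : ι → ℂˣ, ∀ l, w l = (z l : ℂ) * v l := by
    have hch : ∀ l, ∃ y : ℂˣ, w l = (y : ℂ) * v l := ?_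
    · choose z hz using hch
      exact ⟨z, hz⟩
    intro l
    by_cases h : v l = 0
    · refine ⟨1, ?_⟩
      rw [h, mul_zero]
      by_contra h1
      exact hsupp l h1 h
    · refine ⟨Units.mk0 (w l / v l) (div_ne_zero (hsupp' l h) h), ?_⟩
      rw [Units.val_mk0, div_mul_cancel₀ _ h]
  obtain ⟨i, k, hik, hvi, hvk, hpair⟩ := S.exists_pair hM hv hfv
  have hval : ∀ u n : ℕ, e = u * a i + n * a k → (∀ g, χ g = α i g ^ u * α k g ^ n) →
      (z i : ℂ) ^ u * (z k : ℂ) ^ n = c := by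
    intro u n h1 h2
    have h3 := hc _ (isSec_pair h1 h2)
    simp only [map_mul, map_pow, eval_X] at h3
    rw [hz i, hz k, mul_pow, mul_pow] at h3
    refine mul_right_cancel₀ (mul_ne_zero (pow_ne_zero u hvi) (pow_ne_zero n hvk)) ?_
    rw [← h3]
    ring
  have hrel : z i ^ (Nat.card G * a k) = z k ^ (Nat.card G * a i) := by
    by_cases hd : d = Nat.card G * a i * a k
    · exact S.rel_form hfv hfw hz hik hvi (hpair.resolve_left fun h => h hd) hd
    · exact S.rel_shift he χ hik hval hd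
  obtain ⟨t, g, ht1, ht2⟩ := (S.free hik).exists_values (S.ha i) (z i) (z k) (by
    rw [mul_comm (a k), mul_comm (a i)]
    exact hrel)
  refine ⟨t, g, ?_⟩
  -- the constant
  obtain ⟨u, n, h1, h2⟩ := S.sec_two he χ hik
  have hcu : z i ^ u * z k ^ n = t ^ e * χ g := by
    rw [← ht1, ← ht2, h1, h2 g, mul_pow, mul_pow, pow_add, mul_comm u, mul_comm n, pow_mul, pow_mul]
    rw [mul_mul_mul_comm]
  have hkey : ∀ l, v l ≠ 0 → z l = t ^ a l * α l g := by
    intro l hl
    by_cases hli : l = i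
    · subst hli; exact ht1.symm
    · by_cases hlk : l = k
      · subst hlk; exact ht2.symm
      · obtain ⟨u', n', h3, h4⟩ := S.sec_three he χ hik hli hlk
        have h5 := hc _ (isSec_triple h3 h4)
        simp only [map_mul, map_pow, eval_X] at h5
        rw [hz i, hz k, hz l, mul_pow, mul_pow] at h5
        have h6 : (z l : ℂ) * ((z i : ℂ) ^ u' * (z k : ℂ) ^ n') = c := by
          refine mul_right_cancel₀ (mul_ne_zero hl
            (mul_ne_zero (pow_ne_zero u' hvi) (pow_ne_zero n' hvk))) ?_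
          rw [← h5]
          ring
        have h7 : z l * (z i ^ u' * z k ^ n') = t ^ e * χ g := by
          rw [← hcu]
          ext
          push_cast
          rw [h6, hval u n h1 h2]
        rw [← ht1, ← ht2] at h7
        have h8 : t ^ e * χ g = (t ^ a l * α l g) *
            ((t ^ a i * α i g) ^ u' * (t ^ a k * α k g) ^ n') := by
          rw [h3, h4 g, mul_pow, mul_pow, pow_add, pow_add, mul_comm u', mul_comm n', pow_mul,
            pow_mul]
          rw [mul_mul_mul_comm, mul_mul_mul_comm ((t ^ a i) ^ u')]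
        rw [h8] at h7
        exact mul_right_cancel h7
  intro l
  by_cases hl : v l = 0
  · rw [hz l, hl, mul_zero, mul_zero, mul_zero]
  · rw [hz l, hkey l hl]
    push_cast
    ring

end Setup

end Pool.Agent.R920.WQ
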