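import Pool.Agent.R920.WQ.Grp
import Pool.Agent.R920.WC.Main
import Pool.Agent.R920.WC.Poly
import Pool.Agent.H552R3.Tsen.Zero

/-!
# Free diagonal actions on weighted hypersurfaces
-/

set_option autoImplicit false

namespace Pool.Agent.R920.WQ

open MvPolynomial Pool.Agent.R920.WC

variable {G : Type} [Group G] {ι : Type} [Fintype ι] [DecidableEq ι]

theorem eval_scale {a : ι → ℕ} (v : ι → ℂ) (t : ℂ) {s : MvPolynomial ι ℂ} {e : ℕ}
    (hs : IsWeightedHomogeneous a s e) :
    eval (fun i => t ^ a i * v i) s = t ^ e * eval v s := by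
  rw [eval_eq', eval_eq', Finset.mul_sum]
  refine Finset.sum_congr rfl (fun m hm => ?_)
  have hw := hs (mem_support_iff.mp hm)
  rw [weight_eq] at hw
  have h1 : ∏ i, (t ^ a i * v i) ^ m i = t ^ e * ∏ i, v i ^ m i := by
    simp only [mul_pow, Finset.prod_mul_distrib]
    congr 1
    rw [← hw, ← Finset.prod_pow_eq_pow_sum]
    refine Finset.prod_congr rfl (fun i _ => ?_)
    rw [← pow_mul, mul_comm]
  rw [h1]; ring

/-- A weighted hypersurface with a free action of a nontrivial finite diagonal group. -/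
structure Setup (a : ι → ℕ) (α : ι → G →* ℂˣ) (d : ℕ) (f : MvPolynomial ι ℂ) : Prop where
  ha : ∀ i, 0 < a i
  hd : 0 < d
  hf : IsWeightedHomogeneous a f d
  hinv : ∀ g : G, ∃ c : ℂ, ∀ x : ι → ℂ, eval (fun i => (α i g : ℂ) * x i) f = c * eval x f
  hfree : ∀ v : ι → ℂ, v ≠ 0 → eval v f = 0 → ∀ (g : G) (t : ℂ),
    (∀ i, (α i g : ℂ) * v i = t ^ a i * v i) → g = 1 ∧ t = 1
  hG : Nontrivial G

namespace Setup

variable {a : ι → ℕ} {α : ι → G →* ℂˣ} {d : ℕ} {f : MvPolynomial ι ℂ}

theorem eval_zero (S : Setup a α d f) : eval (0 : ι → ℂ) f = 0 := by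
  by_contra h
  obtain ⟨m, hm, hm0⟩ := exists_monomial f _ h
  have h3 := S.hf (mem_support_iff.1 hm)
  rw [weight_eq, Finset.sum_eq_zero (fun i _ => by rw [hm0 i rfl, zero_mul])] at h3
  have := S.hd
  omega

/-- the coordinate points do not lie on the hypersurface -/
theorem eval_single (S : Setup a α d f) (i : ι) : eval (Pi.single i (1 : ℂ)) f ≠ 0 := by
  intro h
  have := S.hG
  obtain ⟨g, hg⟩ := exists_ne (1 : G)
  obtain ⟨t, ht⟩ := exists_root (S.ha i) (α i g)
  refine hg (S.hfree (Pi.single i 1) ?_ h g (t : ℂ) ?_).1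
  · intro h1
    have := congrFun h1 i
    rw [Pi.single_eq_same] at this
    exact one_ne_zero this
  · intro j
    by_cases hj : j = i
    · subst hj
      rw [Pi.single_eq_same, mul_one, mul_one, ← ht, Units.val_pow_eq_pow_val]
    · rw [Pi.single_eq_of_ne hj, mul_zero, mul_zero]

/-- the pure powers -/
theorem exists_pow (S : Setup a α d f) (i : ι) : ∃ s : ℕ, s * a i = d ∧
    ∀ z : ℂ, eval (Pi.single i z) f = z ^ s * eval (Pi.single i (1 : ℂ)) f := by
  obtain ⟨m, hm, hm0⟩ := exists_monomial f _ (S.eval_single i)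
  have h3 := S.hf (mem_support_iff.1 hm)
  rw [weight_eq, Finset.sum_eq_single i (fun j _ hj => by
    rw [hm0 j (Pi.single_eq_of_ne hj _), zero_mul]) (fun h => absurd (Finset.mem_univ _) h)] at h3
  refine ⟨m i, h3, fun z => ?_⟩
  obtain ⟨t, ht⟩ := IsAlgClosed.exists_pow_nat_eq z (S.ha i)
  have h1 : (Pi.single i z : ι → ℂ) = fun j => t ^ a j * (Pi.single i (1 : ℂ) : ι → ℂ) j := by
    funext j
    by_cases hj : j = i
    · subst hj
      rw [Pi.single_eq_same, Pi.single_eq_same, mul_one, ht]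
    · rw [Pi.single_eq_of_ne hj, Pi.single_eq_of_ne hj, mul_zero]
  rw [h1, eval_scale _ _ S.hf, ← ht, ← pow_mul, mul_comm (a i), h3]

/-- the characters of the pure powers -/
theorem chars (S : Setup a α d f) {i k : ι} {s r : ℕ} (hs : s * a i = d) (hr : r * a k = d)
    (g : G) : α i g ^ s = α k g ^ r := by
  obtain ⟨c, hc⟩ := S.hinv g
  have key : ∀ (j : ι) (q : ℕ), q * a j = d → ((α j g : ℂˣ) : ℂ) ^ q = c := by
    intro j q hq
    obtain ⟨q', hq', h1⟩ := S.exists_pow j
    have h2 : q' = q := Nat.eq_of_mul_eq_mul_right (S.ha j) (hq'.trans hq.symm)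
    subst h2
    have h3 := hc (Pi.single j 1)
    have h4 : (fun l => (α l g : ℂ) * (Pi.single j (1 : ℂ) : ι → ℂ) l)
        = Pi.single j (α j g : ℂ) := by
      funext l
      by_cases hl : l = j
      · subst hl
        rw [Pi.single_eq_same, Pi.single_eq_same, mul_one]
      · rw [Pi.single_eq_of_ne hl, Pi.single_eq_of_ne hl, mul_zero]
    rw [h4, h1] at h3
    exact mul_right_cancel₀ (S.eval_single j) h3
  ext
  rw [Units.val_pow_eq_pow_val, Units.val_pow_eq_pow_val, key i s hs, key k r hr]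

/-- a point of the hypersurface with exactly two nonzero coordinates -/
theorem exists_zero (S : Setup a α d f) {i k : ι} (hik : i ≠ k) :
    ∃ v : ι → ℂ, v i ≠ 0 ∧ v k ≠ 0 ∧ (∀ j, j ≠ i → j ≠ k → v j = 0) ∧ eval v f = 0 := by
  classical
  let res : MvPolynomial ι ℂ →ₐ[ℂ] MvPolynomial (Fin 2) ℂ :=
    aeval (fun j => if j = i then X 0 else if j = k then X 1 else 0)
  let ext : (Fin 2 → ℂ) → ι → ℂ := fun u j => if j = i then u 0 else if j = k then u 1 else 0
  have hres : ∀ (u : Fin 2 → ℂ) (p : MvPolynomial ι ℂ), eval u (res p) = eval (ext u) p := by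
    intro u p
    have h1 : ((aeval u : MvPolynomial (Fin 2) ℂ →ₐ[ℂ] ℂ).comp res) = aeval (ext u) := by
      apply MvPolynomial.algHom_ext
      intro j
      simp only [AlgHom.comp_apply, res, ext, aeval_X]
      by_cases h : j = i
      · simp [h]
      · by_cases h' : j = k
        · simp [h, h', hik.symm]
        · simp [h, h']
    have h2 := congrArg (fun φ => φ p) (congrArg DFunLike.coe h1)
    simpa [coe_aeval_eq_eval] using h2
  obtain ⟨u, hu, hu0⟩ := Pool.Agent.H552R3.Tsen.exists_common_zero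
    (fun _ : Fin 1 => res f) (fun _ => by
      rw [hres]
      have : ext 0 = 0 := by
        funext i
        simp only [ext]
        split
        · rfl
        · split <;> rfl
      rw [this]
      exact S.eval_zero) (by simp)
  have h0 := hu0 0
  rw [hres] at h0
  have hi : ext u i = u 0 := by simp [ext]
  have hk : ext u k = u 1 := by simp [ext, hik.symm]
  have hj : ∀ j, j ≠ i → j ≠ k → ext u j = 0 := by
    intro j h1 h2
    simp [ext, h1, h2]
  have key : ∀ (j : ι) (z : ℂ), ext u = Pi.single j z → z ≠ 0 → False := by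
    intro j z h1 h2
    obtain ⟨s, _, hs⟩ := S.exists_pow j
    rw [h1, hs] at h0
    exact mul_ne_zero (pow_ne_zero _ h2) (S.eval_single j) h0
  refine ⟨ext u, ?_, ?_, hj, h0⟩
  · rw [hi]
    intro h
    have h1 : u 1 ≠ 0 := by
      intro h1
      refine hu (funext fun l => ?_)
      fin_cases l
      · exact h
      · exact h1
    refine key k (u 1) ?_ h1
    funext j
    by_cases hjk : j = k
    · subst hjk
      rw [hk, Pi.single_eq_same]
    · rw [Pi.single_eq_of_ne hjk]
      by_cases hji : j = i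
      · subst hji
        rw [hi, h]
      · exact hj j hji hjk
  · rw [hk]
    intro h
    have h1 : u 0 ≠ 0 := by
      intro h1
      refine hu (funext fun l => ?_)
      fin_cases l
      · exact h1
      · exact h
    refine key i (u 0) ?_ h1
    funext j
    by_cases hji : j = i
    · subst hji
      rw [hi, Pi.single_eq_same]
    · rw [Pi.single_eq_of_ne hji]
      by_cases hjk : j = k
      · subst hjk
        rw [hk, h]
      · exact hj j hji hjk

/-- any two characters of the coordinates are jointly injective -/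
theorem free (S : Setup a α d f) {i k : ι} (hik : i ≠ k) : Free (a i) (a k) (α i) (α k) := by
  obtain ⟨v, hvi, _, hv, hv0⟩ := S.exists_zero hik
  intro t h h1 h2
  have h3 := S.hfree v (fun h3 => hvi (congrFun h3 i)) hv0 h ((t⁻¹ : ℂˣ) : ℂ) (by
    intro j
    have key : ∀ j, t ^ a j * α j h = 1 → ((α j h : ℂˣ) : ℂ) = ((t⁻¹ : ℂˣ) : ℂ) ^ a j := by
      intro j hj
      rw [← Units.val_pow_eq_pow_val, inv_pow]
      congr 1
      rw [eq_comm, inv_eq_iff_mul_eq_one]
      exact hj
    by_cases hji : j = i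
    · subst hji
      rw [key _ h1]
    · by_cases hjk : j = k
      · subst hjk
        rw [key _ h2]
      · rw [hv j hji hjk, mul_zero, mul_zero])
  refine ⟨?_, h3.1⟩
  have h4 : t⁻¹ = 1 := Units.ext h3.2
  exact inv_eq_one.1 h4

variable [Finite G]

theorem two_le (S : Setup a α d f) : 2 ≤ Nat.card G := by
  have := S.hG
  exact Finite.one_lt_card

theorem coprime (S : Setup a α d f) {i k : ι} (hik : i ≠ k) : Nat.Coprime (a i) (a k) := by
  obtain ⟨v, _, u, h, _⟩ := (S.free hik).exists_int (S.ha i) 1 1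
  rw [← Nat.isCoprime_iff_coprime]
  exact ⟨u, v, h.symm⟩

theorem dvd (S : Setup a α d f) {i k : ι} (hik : i ≠ k) : Nat.card G * a i * a k ∣ d := by
  obtain ⟨s, hs, _⟩ := S.exists_pow i
  obtain ⟨r, hr, _⟩ := S.exists_pow k
  have h1 := (S.free hik).dvd (S.ha i) (hs.trans hr.symm) (S.chars hs hr)
  rw [← hr, mul_comm (Nat.card G)]
  exact Nat.mul_dvd_mul_right h1 _

/-- the degree and the weights of the other coordinates -/
theorem dvd_all (S : Setup a α d f) {i k : ι} (hik : i ≠ k) :
    ∃ M, d = M * (Nat.card G * a i * a k) ∧ 0 < M ∧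
      ∏ m ∈ Finset.univ.filter (fun m => m ≠ i ∧ m ≠ k), a m ∣ M := by
  obtain ⟨M, hM⟩ := S.dvd hik
  have hpos : 0 < Nat.card G * a i * a k :=
    Nat.mul_pos (Nat.mul_pos Nat.card_pos (S.ha i)) (S.ha k)
  have hM0 : 0 < M := by
    rcases Nat.eq_zero_or_pos M with h | h
    · have := S.hd
      rw [hM, h, mul_zero] at this
      omega
    · exact h
  refine ⟨M, by rw [hM, mul_comm], hM0, ?_⟩
  refine prod_dvd _ _ (fun x _ y _ hxy => S.coprime hxy) _ ?_
  intro m hm
  rw [Finset.mem_filter] at hm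
  have h1 := S.dvd (Ne.symm hm.2.1)
  rw [hM, mul_assoc] at h1
  have h2 := Nat.dvd_of_mul_dvd_mul_left (Nat.mul_pos Nat.card_pos (S.ha i))
    (show Nat.card G * a i * a m ∣ Nat.card G * a i * (a k * M) by
      rw [mul_assoc (Nat.card G) (a i) (a k * M), mul_assoc (Nat.card G) (a i) (a m)]
      rw [mul_assoc] at h1
      simpa [mul_assoc] using h1)
  exact (S.coprime hm.2.2).dvd_of_dvd_mul_left h2

end Setup

end Pool.Agent.R920.WQ
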